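import Mathlib

set_option autoImplicit false
open MeasureTheory Set Filter Topology Metric
open scoped ENNReal

namespace Pool.Agent.Results.MP_edcda5_an.Gehring

/-- The closed axis-parallel cube with lower corner `a` and side length `ℓ`. -/
def cube {d : ℕ} (a : Fin d → ℝ) (ℓ : ℝ) : Set (Fin d → ℝ) := Set.Icc a (fun i => a i + ℓ)

/-- The average `⟨f⟩_Q = |Q|⁻¹ ∫_Q f` of a nonnegative function over the cube `Q = cube a ℓ`. -/
noncomputable def avg {d : ℕ} (f : (Fin d → ℝ) → ℝ) (a : Fin d → ℝ) (ℓ : ℝ) : ℝ≥0∞ :=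
  (∫⁻ x in cube a ℓ, ENNReal.ofReal (f x)) / volume (cube a ℓ)

/-- A weight: a locally integrable positive function on `ℝ^d`. -/
def IsWeight {d : ℕ} (w : (Fin d → ℝ) → ℝ) : Prop :=
  LocallyIntegrable w volume ∧ ∀ x, 0 < w x

/-- The reverse Hölder constant `[w]_{RH_p} = sup_Q ⟨w^p⟩_Q^{1/p} ⟨w⟩_Q^{-1}`. -/
noncomputable def rhConst {d : ℕ} (p : ℝ) (w : (Fin d → ℝ) → ℝ) : ℝ≥0∞ :=
  ⨆ (a : Fin d → ℝ) (ℓ : ℝ) (_ : 0 < ℓ), avg (fun x => w x ^ p) a ℓ ^ (1 / p) / avg w a ℓ

/-! ### Two scalar inequalities -/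

theorem scalar1 {a b p : ℝ} (ha : 0 ≤ a) (hb : 0 ≤ b) (hp : 1 < p) :
    (p - 1) / p * (b ^ p - a ^ p) ≤ b * (b ^ (p - 1) - a ^ (p - 1)) := by
  have hq : p.HolderConjugate (p / (p - 1)) := Real.HolderConjugate.conjExponent hp
  have h := Real.young_inequality_of_nonneg hb (Real.rpow_nonneg ha (p - 1)) hq
  have h1 : (a ^ (p - 1)) ^ (p / (p - 1)) = a ^ p := by
    rw [← Real.rpow_mul ha]
    congr 1
    have : p - 1 ≠ 0 := by linarith
    field_simp
  rw [h1] at h
  have h2 : b * b ^ (p - 1) = b ^ p := by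
    rcases hb.eq_or_lt with h0 | h0
    · rw [← h0, zero_mul, Real.zero_rpow (by linarith)]
    · nth_rewrite 1 [← Real.rpow_one b]
      rw [← Real.rpow_add h0]; congr 1; ring
  have hp0 : (0 : ℝ) < p := by linarith
  have h3 : a ^ p / (p / (p - 1)) = (p - 1) / p * a ^ p := by
    have : p - 1 ≠ 0 := by linarith
    field_simp
  have h4 : b ^ p / p = b ^ p - (p - 1) / p * b ^ p := by
    field_simp; ring
  rw [h3, h4] at h
  rw [mul_sub, mul_sub, h2]
  linarith

theorem scalar2 {a b c η : ℝ} (ha : 0 ≤ a) (hab : a ≤ b) (hbc : b ≤ c * a) (hc : 0 ≤ c) (hη : 0 < η) :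
    b * (b ^ η - a ^ η) ≤ c * η * (b ^ (1 + η) - a ^ (1 + η)) := by
  have hb : 0 ≤ b := ha.trans hab
  have h0 : 0 ≤ b ^ η - a ^ η := sub_nonneg.2 (Real.rpow_le_rpow ha hab hη.le)
  have h1 : b * (b ^ η - a ^ η) ≤ c * (a * (b ^ η - a ^ η)) := by
    calc b * (b ^ η - a ^ η) ≤ (c * a) * (b ^ η - a ^ η) := by gcongr
      _ = _ := by ring
  have hq : (1 + η).HolderConjugate ((1 + η) / (1 + η - 1)) := Real.HolderConjugate.conjExponent (by linarith)
  have h := Real.young_inequality_of_nonneg ha (Real.rpow_nonneg hb η) hq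
  have h2 : (b ^ η) ^ ((1 + η) / (1 + η - 1)) = b ^ (1 + η) := by
    rw [← Real.rpow_mul hb]
    congr 1
    have : 1 + η - 1 = η := by ring
    rw [this]; field_simp
  rw [h2] at h
  have h3 : a * a ^ η = a ^ (1 + η) := by
    rcases ha.eq_or_lt with h0 | h0
    · rw [← h0, zero_mul, Real.zero_rpow (by linarith)]
    · nth_rewrite 1 [← Real.rpow_one a]
      rw [← Real.rpow_add h0]
  have h4 : b ^ (1 + η) / ((1 + η) / (1 + η - 1)) = η / (1 + η) * b ^ (1 + η) := by
    have : 1 + η - 1 = η := by ring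
    rw [this]; field_simp
  have h5 : a ^ (1 + η) / (1 + η) = a ^ (1 + η) - η / (1 + η) * a ^ (1 + η) := by
    field_simp; ring
  rw [h4, h5] at h
  have h6 : a * (b ^ η - a ^ η) ≤ η / (1 + η) * (b ^ (1 + η) - a ^ (1 + η)) := by
    rw [mul_sub, h3]; linarith
  have h7 : 0 ≤ b ^ (1 + η) - a ^ (1 + η) := sub_nonneg.2 (Real.rpow_le_rpow ha hab (by linarith))
  have h8 : η / (1 + η) ≤ η := div_le_self hη.le (by linarith)
  calc b * (b ^ η - a ^ η) ≤ c * (a * (b ^ η - a ^ η)) := h1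
    _ ≤ c * (η / (1 + η) * (b ^ (1 + η) - a ^ (1 + η))) := by gcongr
    _ ≤ c * (η * (b ^ (1 + η) - a ^ (1 + η))) := by gcongr
    _ = _ := by ring

theorem young_split {a b θ p : ℝ} (ha : 0 ≤ a) (hb : 0 ≤ b) (hθ : 0 < θ) (hp : 1 < p) :
    a ^ (p - 1) * b ≤ θ * a ^ p + (1 / θ) ^ (p - 1) * b ^ p := by
  have e : ∀ {x : ℝ}, 0 ≤ x → x ^ (p - 1) * x = x ^ p := by
    intro x hx
    rcases hx.eq_or_lt with h0 | h0
    · rw [← h0, mul_zero, Real.zero_rpow (by linarith)]
    · nth_rewrite 2 [← Real.rpow_one x]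
      rw [← Real.rpow_add h0]; congr 1; ring
  rcases le_total b (θ * a) with h | h
  · calc a ^ (p - 1) * b ≤ a ^ (p - 1) * (θ * a) := by gcongr
      _ = θ * a ^ p := by rw [← e ha]; ring
      _ ≤ _ := le_add_of_nonneg_right (by positivity)
  · have h1 : a ≤ (1 / θ) * b := by rw [one_div, ← div_eq_inv_mul, le_div_iff₀ hθ]; linarith
    calc a ^ (p - 1) * b ≤ ((1 / θ) * b) ^ (p - 1) * b := by
          gcongr
      _ = (1 / θ) ^ (p - 1) * b ^ p := by
          rw [Real.mul_rpow (by positivity) hb, mul_assoc, e hb]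
      _ ≤ _ := le_add_of_nonneg_left (by positivity)

/-! ### The discrete theorem on a tree -/

section tree

set_option linter.unusedSectionVars false

variable {C ι : Type*} [Fintype ι] [Nonempty ι] (ch : C → ι → C)

/-- average over the descendants of generation `N`, with the running maximum of `u` -/
noncomputable def T (u : C → ℝ) (G : ℝ → C → ℝ) : ℕ → C → ℝ → ℝ
  | 0, Q, m => G (max m (u Q)) Q
  | N + 1, Q, m => (∑ σ, T u G N (ch Q σ) (max m (u Q))) / Fintype.card ι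

theorem card_pos' : (0 : ℝ) < Fintype.card ι := by exact_mod_cast Fintype.card_pos

theorem avg_le {f g : ι → ℝ} (h : ∀ σ, f σ ≤ g σ) :
    (∑ σ, f σ) / (Fintype.card ι : ℝ) ≤ (∑ σ, g σ) / (Fintype.card ι : ℝ) := by
  have := card_pos' (ι := ι)
  gcongr with σ
  exact h σ

theorem avg_const (x : ℝ) : (∑ _σ : ι, x) / (Fintype.card ι : ℝ) = x := by
  have := card_pos' (ι := ι)
  rw [Finset.sum_const, Finset.card_univ, nsmul_eq_mul]; field_simp

theorem avg_add (f g : ι → ℝ) : (∑ σ, (f σ + g σ)) / (Fintype.card ι : ℝ)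
    = (∑ σ, f σ) / (Fintype.card ι : ℝ) + (∑ σ, g σ) / (Fintype.card ι : ℝ) := by
  rw [Finset.sum_add_distrib, add_div]

theorem avg_sub (f g : ι → ℝ) : (∑ σ, (f σ - g σ)) / (Fintype.card ι : ℝ)
    = (∑ σ, f σ) / (Fintype.card ι : ℝ) - (∑ σ, g σ) / (Fintype.card ι : ℝ) := by
  rw [Finset.sum_sub_distrib, sub_div]

theorem avg_mul (c : ℝ) (f : ι → ℝ) : (∑ σ, c * f σ) / (Fintype.card ι : ℝ)
    = c * ((∑ σ, f σ) / (Fintype.card ι : ℝ)) := by
  rw [← Finset.mul_sum, mul_div_assoc]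

theorem T_le_G {u : C → ℝ} (G G' : ℝ → C → ℝ) (h : ∀ m Q, 0 ≤ m → u Q ≤ m → G m Q ≤ G' m Q) :
    ∀ N Q m, 0 ≤ m → T ch u G N Q m ≤ T ch u G' N Q m := by
  intro N
  induction N with
  | zero => intro Q m hm; exact h _ _ (hm.trans (le_max_left _ _)) (le_max_right _ _)
  | succ N ih => intro Q m hm; exact avg_le (fun σ => ih _ _ (hm.trans (le_max_left _ _)))

theorem T_le_m {u : C → ℝ} (G : ℝ → C → ℝ) (h : ∀ m m' Q, 0 ≤ m → m ≤ m' → G m Q ≤ G m' Q) :
    ∀ N Q m m', 0 ≤ m → m ≤ m' → T ch u G N Q m ≤ T ch u G N Q m' := by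
  intro N
  induction N with
  | zero =>
    intro Q m m' hm hmm
    exact h _ _ _ (hm.trans (le_max_left _ _)) (max_le_max hmm le_rfl)
  | succ N ih =>
    intro Q m m' hm hmm
    exact avg_le (fun σ => ih _ _ _ (hm.trans (le_max_left _ _)) (max_le_max hmm le_rfl))

variable {ch}

/-- the averages of a reverse Hölder weight and of its `p`-th power -/
structure Sys (ch : C → ι → C) (K p : ℝ) (wb vb : C → ℝ) : Prop where
  hp : 1 < p
  wpos : ∀ Q, 0 < wb Q
  avgw : ∀ Q, wb Q = (∑ σ, wb (ch Q σ)) / Fintype.card ι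
  avgv : ∀ Q, vb Q = (∑ σ, vb (ch Q σ)) / Fintype.card ι
  jen : ∀ Q, wb Q ^ p ≤ vb Q
  rh : ∀ Q, vb Q ≤ K * wb Q ^ p

variable {K p : ℝ} {wb vb : C → ℝ}

theorem Sys.vpos (h : Sys ch K p wb vb) (Q : C) : 0 < vb Q :=
  lt_of_lt_of_le (Real.rpow_pos_of_pos (h.wpos Q) p) (h.jen Q)

theorem Sys.one_le_K (h : Sys ch K p wb vb) (Q : C) : 1 ≤ K := by
  have h1 := (h.jen Q).trans (h.rh Q)
  have h2 := Real.rpow_pos_of_pos (h.wpos Q) p
  by_contra h3
  push Not at h3
  nlinarith

theorem Sys.child_le (h : Sys ch K p wb vb) (Q : C) (σ : ι) : vb (ch Q σ) ≤ Fintype.card ι * vb Q := by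
  have h1 := h.avgv Q
  have := card_pos' (ι := ι)
  rw [eq_div_iff this.ne'] at h1
  rw [mul_comm, h1]
  exact Finset.single_le_sum (f := fun σ => vb (ch Q σ)) (fun σ _ => (h.vpos _).le) (Finset.mem_univ σ)

theorem doob (h : Sys ch K p wb vb) : ∀ N Q m, 0 ≤ m →
    m ^ (p - 1) * wb Q + (p - 1) / p * (T ch wb (fun m _ => m ^ p) N Q m - m ^ p)
      ≤ T ch wb (fun m Q => m ^ (p - 1) * wb Q) N Q m := by
  have key : ∀ (Q : C) (m : ℝ), 0 ≤ m → m ^ (p - 1) * wb Q - (p - 1) / p * m ^ p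
      ≤ (max m (wb Q)) ^ (p - 1) * wb Q - (p - 1) / p * (max m (wb Q)) ^ p := by
    intro Q m hm
    rcases le_total (wb Q) m with h1 | h1
    · rw [max_eq_left h1]
    · rw [max_eq_right h1]
      have := scalar1 hm (h.wpos Q).le h.hp
      nlinarith
  intro N
  induction N with
  | zero =>
    intro Q m hm
    simp only [T]
    have := key Q m hm
    linarith
  | succ N ih =>
    intro Q m hm
    simp only [T]
    have hm' : 0 ≤ max m (wb Q) := hm.trans (le_max_left _ _)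
    have h1 := avg_le (fun σ => ih (ch Q σ) (max m (wb Q)) hm')
    refine le_trans ?_ h1
    rw [avg_add, avg_mul, avg_mul, avg_sub, avg_const, ← h.avgw Q]
    have := key Q m hm
    linarith

theorem T_leaf_v (h : Sys ch K p wb vb) (u : C → ℝ) : ∀ N Q m, T ch u (fun _ Q => vb Q) N Q m = vb Q := by
  intro N
  induction N with
  | zero => intro Q m; rfl
  | succ N ih =>
    intro Q m
    simp only [T, ih]
    exact (h.avgv Q).symm

theorem T_add (u : C → ℝ) (G G' : ℝ → C → ℝ) : ∀ N Q m,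
    T ch u (fun m Q => G m Q + G' m Q) N Q m = T ch u G N Q m + T ch u G' N Q m := by
  intro N
  induction N with
  | zero => intro Q m; rfl
  | succ N ih => intro Q m; simp only [T, ih]; rw [avg_add]

theorem T_mul (u : C → ℝ) (G : ℝ → C → ℝ) (c : ℝ) : ∀ N Q m,
    T ch u (fun m Q => c * G m Q) N Q m = c * T ch u G N Q m := by
  intro N
  induction N with
  | zero => intro Q m; rfl
  | succ N ih => intro Q m; simp only [T, ih]; rw [avg_mul]

theorem T_nonneg (u : C → ℝ) (G : ℝ → C → ℝ) (hG : ∀ m Q, 0 ≤ m → 0 ≤ G m Q) : ∀ N Q m, 0 ≤ m →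
    0 ≤ T ch u G N Q m := by
  intro N
  induction N with
  | zero => intro Q m hm; exact hG _ _ (hm.trans (le_max_left _ _))
  | succ N ih =>
    intro Q m hm
    simp only [T]
    exact div_nonneg (Finset.sum_nonneg fun σ _ => ih _ _ (hm.trans (le_max_left _ _))) (Nat.cast_nonneg _)

/-- the maximal inequality -/
theorem doob_final (h : Sys ch K p wb vb) (N : ℕ) (Q : C) :
    T ch wb (fun m _ => m ^ p) N Q 0 ≤ (2 * p / (p - 1)) ^ p * vb Q := by
  have hp := h.hp
  have hp0 : 0 < p := by linarith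
  have hp1 : 0 < p - 1 := by linarith
  set θ : ℝ := (p - 1) / (2 * p) with hθ
  have hθ0 : 0 < θ := by positivity
  have h1 := doob h N Q 0 le_rfl
  have h2 : T ch wb (fun m Q => m ^ (p - 1) * wb Q) N Q 0
      ≤ T ch wb (fun m Q => θ * m ^ p + (1 / θ) ^ (p - 1) * vb Q) N Q 0 := by
    refine T_le_G ch _ _ (fun m Q hm _ => ?_) N Q 0 le_rfl
    refine (young_split hm (h.wpos Q).le hθ0 hp).trans ?_
    gcongr
    exact h.jen Q
  rw [T_add, T_mul, T_mul, T_leaf_v h] at h2
  rw [Real.zero_rpow hp1.ne', Real.zero_rpow hp0.ne', zero_mul, zero_add, sub_zero] at h1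
  set P := T ch wb (fun m _ => m ^ p) N Q 0 with hP
  have h3 : (p - 1) / p * P = 2 * (θ * P) := by rw [hθ]; field_simp
  have h4 : θ * P ≤ (1 / θ) ^ (p - 1) * vb Q := by linarith
  have h5 : (2 * p / (p - 1)) = 1 / θ := by rw [hθ]; field_simp
  have h6 : (1 / θ) ^ p = (1 / θ) * (1 / θ) ^ (p - 1) := by
    nth_rewrite 2 [← Real.rpow_one (1 / θ)]
    rw [← Real.rpow_add (by positivity)]; congr 1; ring
  rw [h5, h6, mul_assoc]
  rw [one_div, ← div_eq_inv_mul, le_div_iff₀ hθ0, mul_comm, ← one_div]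
  exact h4

theorem max_v_le (h : Sys ch K p wb vb) : ∀ N Q m, 0 ≤ m →
    T ch vb (fun m _ => m) N Q (K * m ^ p) ≤ K * T ch wb (fun m _ => m ^ p) N Q m := by
  have key : ∀ (Q : C) (m : ℝ), 0 ≤ m → max (K * m ^ p) (vb Q) ≤ K * (max m (wb Q)) ^ p := by
    intro Q m hm
    have hK := h.one_le_K Q
    have hp := h.hp
    refine max_le ?_ ?_
    · gcongr; exact le_max_left _ _
    · refine (h.rh Q).trans ?_
      have := (h.wpos Q).le
      gcongr; exact le_max_right _ _
  intro N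
  induction N with
  | zero => intro Q m hm; exact key Q m hm
  | succ N ih =>
    intro Q m hm
    simp only [T]
    rw [← avg_mul]
    have hK := h.one_le_K Q
    refine avg_le (fun σ => ?_)
    refine le_trans ?_ (ih (ch Q σ) _ (hm.trans (le_max_left _ _)))
    refine T_le_m ch _ (fun m m' Q _ hmm => hmm) N _ _ _ ?_ (key Q m hm)
    exact le_max_of_le_left (by positivity)

/-- the Fujii-Wilson type bound -/
theorem fw (h : Sys ch K p wb vb) (N : ℕ) (Q : C) :
    T ch vb (fun m _ => m) N Q 0 ≤ K * (2 * p / (p - 1)) ^ p * vb Q := by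
  have hp := h.hp
  have h1 := max_v_le h N Q 0 le_rfl
  rw [Real.zero_rpow (by linarith), mul_zero] at h1
  refine h1.trans ?_
  have hK := h.one_le_K Q
  rw [mul_assoc]
  have := doob_final h N Q
  gcongr

theorem hp1 (h : Sys ch K p wb vb) {A η : ℝ} (hA : 1 ≤ A) (hη : 0 < η)
    (hfw : ∀ N Q, T ch vb (fun m _ => m) N Q 0 ≤ A * vb Q) : ∀ N Q m, 0 < m →
    vb Q ≤ Fintype.card ι * m →
    T ch vb (fun m _ => m ^ (1 + η)) N Q m ≤ m ^ η * T ch vb (fun m _ => m) N Q m
      + (Fintype.card ι * η * A) * (T ch vb (fun m _ => m ^ (1 + η)) N Q m - m ^ (1 + η)) := by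
  have hc := card_pos' (ι := ι)
  have e : ∀ {x : ℝ}, 0 < x → x ^ (1 + η) = x * x ^ η := by
    intro x hx; rw [Real.rpow_add hx, Real.rpow_one]
  have scal : ∀ Q m, 0 < m → vb Q ≤ Fintype.card ι * m → m ≤ vb Q →
      A * (vb Q * (vb Q ^ η - m ^ η)) ≤ (Fintype.card ι * η * A) * (vb Q ^ (1 + η) - m ^ (1 + η)) := by
    intro Q m hm hQ h1
    have h2 := scalar2 hm.le h1 hQ hc.le hη
    calc A * (vb Q * (vb Q ^ η - m ^ η))
        ≤ A * (Fintype.card ι * η * (vb Q ^ (1 + η) - m ^ (1 + η))) := by gcongr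
      _ = _ := by ring
  intro N
  induction N with
  | zero =>
    intro Q m hm hQ
    simp only [T]
    rcases le_total (vb Q) m with h1 | h1
    · rw [max_eq_left h1, sub_self, mul_zero, add_zero, e hm, mul_comm]
    · rw [max_eq_right h1]
      have h2 := scal Q m hm hQ h1
      have h3 : 0 ≤ vb Q * (vb Q ^ η - m ^ η) :=
        mul_nonneg (h.vpos Q).le (sub_nonneg.2 (Real.rpow_le_rpow hm.le h1 hη.le))
      have h4 : vb Q ^ (1 + η) = vb Q * vb Q ^ η := e (h.vpos Q)
      have h6 : vb Q * (vb Q ^ η - m ^ η) = vb Q ^ (1 + η) - m ^ η * vb Q := by rw [h4]; ring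
      nlinarith
  | succ N ih =>
    intro Q m hm hQ
    have hm' : 0 < max m (vb Q) := lt_of_lt_of_le hm (le_max_left _ _)
    have h1 : ∀ σ, vb (ch Q σ) ≤ Fintype.card ι * max m (vb Q) := by
      intro σ
      refine (h.child_le Q σ).trans ?_
      gcongr
      exact le_max_right _ _
    have h2 := avg_le (fun σ => ih (ch Q σ) _ hm' (h1 σ))
    rw [avg_add, avg_mul, avg_mul, avg_sub, avg_const] at h2
    have h3 : T ch vb (fun m _ => m ^ (1 + η)) (N + 1) Q m
      = (∑ σ, T ch vb (fun m _ => m ^ (1 + η)) N (ch Q σ) (max m (vb Q))) / Fintype.card ι := rfl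
    have h4 : T ch vb (fun m _ => m) (N + 1) Q m
      = (∑ σ, T ch vb (fun m _ => m) N (ch Q σ) (max m (vb Q))) / Fintype.card ι := rfl
    rw [← h3, ← h4] at h2
    rcases le_total (vb Q) m with h5 | h5
    · rw [max_eq_left h5] at h2
      exact h2
    · rw [max_eq_right h5] at h2
      have h6 : T ch vb (fun m _ => m) (N + 1) Q m = T ch vb (fun m _ => m) (N + 1) Q 0 := by
        simp only [T, max_eq_right h5, max_eq_right (h.vpos Q).le]
      have h7 : T ch vb (fun m _ => m) (N + 1) Q m ≤ A * vb Q := by rw [h6]; exact hfw (N + 1) Q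
      have h8 := scal Q m hm hQ h5
      have h9 : 0 ≤ vb Q ^ η - m ^ η := sub_nonneg.2 (Real.rpow_le_rpow hm.le h5 hη.le)
      have h10 : (vb Q ^ η - m ^ η) * T ch vb (fun m _ => m) (N + 1) Q m ≤ (vb Q ^ η - m ^ η) * (A * vb Q) := by
        gcongr
      nlinarith

theorem hp2 (h : Sys ch K p wb vb) {η : ℝ} (hη : 0 < η) : ∀ N Q m, 0 < m →
    vb Q ≤ Fintype.card ι * m →
    T ch vb (fun m Q => m ^ η * vb Q) N Q m ≤ m ^ η * vb Q
      + (Fintype.card ι * η) * (T ch vb (fun m _ => m ^ (1 + η)) N Q m - m ^ (1 + η)) := by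
  have hc := card_pos' (ι := ι)
  have scal : ∀ Q m, 0 < m → vb Q ≤ Fintype.card ι * m →
      (max m (vb Q)) ^ η * vb Q - (Fintype.card ι * η) * (max m (vb Q)) ^ (1 + η)
        ≤ m ^ η * vb Q - (Fintype.card ι * η) * m ^ (1 + η) := by
    intro Q m hm hQ
    rcases le_total (vb Q) m with h1 | h1
    · rw [max_eq_left h1]
    · rw [max_eq_right h1]
      have h2 := scalar2 hm.le h1 hQ hc.le hη
      nlinarith
  intro N
  induction N with
  | zero =>
    intro Q m hm hQ
    simp only [T]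
    have := scal Q m hm hQ
    linarith
  | succ N ih =>
    intro Q m hm hQ
    have hm' : 0 < max m (vb Q) := lt_of_lt_of_le hm (le_max_left _ _)
    have h1 : ∀ σ, vb (ch Q σ) ≤ Fintype.card ι * max m (vb Q) := by
      intro σ
      refine (h.child_le Q σ).trans ?_
      gcongr
      exact le_max_right _ _
    have h2 := avg_le (fun σ => ih (ch Q σ) _ hm' (h1 σ))
    rw [avg_add, avg_mul, avg_mul, avg_sub, avg_const, ← h.avgv Q] at h2
    have h3 : T ch vb (fun m _ => m ^ (1 + η)) (N + 1) Q m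
      = (∑ σ, T ch vb (fun m _ => m ^ (1 + η)) N (ch Q σ) (max m (vb Q))) / Fintype.card ι := rfl
    have h4 : T ch vb (fun m Q => m ^ η * vb Q) (N + 1) Q m
      = (∑ σ, T ch vb (fun m Q => m ^ η * vb Q) N (ch Q σ) (max m (vb Q))) / Fintype.card ι := rfl
    rw [← h3, ← h4] at h2
    have := scal Q m hm hQ
    linarith

/-- the discrete reverse Hölder inequality -/
theorem discrete (h : Sys ch K p wb vb) {η : ℝ} (hη : 0 < η)
    (hη2 : 2 * (Fintype.card ι * η * (K * (2 * p / (p - 1)) ^ p)) ≤ 1) (N : ℕ) (Q : C) :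
    T ch vb (fun _ Q => vb Q ^ (1 + η)) N Q (vb Q) ≤ 2 * vb Q ^ (1 + η) := by
  have hp := h.hp
  have hc := card_pos' (ι := ι)
  have hc1 : (1 : ℝ) ≤ Fintype.card ι := by exact_mod_cast Fintype.card_pos
  set A : ℝ := K * (2 * p / (p - 1)) ^ p with hA
  have hK := h.one_le_K Q
  have h2p : 1 ≤ 2 * p / (p - 1) := by rw [one_le_div (by linarith)]; linarith
  have hA0 : 1 ≤ (2 * p / (p - 1)) ^ p := Real.one_le_rpow h2p (by linarith)
  have hA1 : 1 ≤ A := by rw [hA]; nlinarith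
  have hv := h.vpos Q
  have hm : vb Q ≤ Fintype.card ι * vb Q := le_mul_of_one_le_left hv.le hc1
  have e : vb Q ^ (1 + η) = vb Q ^ η * vb Q := by rw [Real.rpow_add hv, Real.rpow_one, mul_comm]
  have h1 := hp1 h hA1 hη (fun N Q => fw h N Q) N Q (vb Q) hv hm
  have h2 := hp2 h hη N Q (vb Q) hv hm
  have h3 : T ch vb (fun _ Q => vb Q ^ (1 + η)) N Q (vb Q) ≤ T ch vb (fun m Q => m ^ η * vb Q) N Q (vb Q) := by
    refine T_le_G ch _ _ (fun m Q hm hQ => ?_) N Q _ hv.le
    have hvQ := h.vpos Q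
    rw [Real.rpow_add hvQ, Real.rpow_one, mul_comm]
    gcongr
  have h4 : T ch vb (fun m _ => m) N Q (vb Q) ≤ A * vb Q := by
    have h5 : T ch vb (fun m _ => m) N Q (vb Q) = T ch vb (fun m _ => m) N Q 0 := by
      cases N with
      | zero => simp only [T, max_self, max_eq_right hv.le]
      | succ N => simp only [T, max_self, max_eq_right hv.le]
    rw [h5]; exact fw h N Q
  set Y := T ch vb (fun m _ => m ^ (1 + η)) N Q (vb Q) with hY
  have hYpos : 0 ≤ Y := T_nonneg vb _ (fun m _ hm => Real.rpow_nonneg hm _) N Q _ hv.le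
  have h6 : vb Q ^ η * T ch vb (fun m _ => m) N Q (vb Q) ≤ A * vb Q ^ (1 + η) := by
    rw [e]
    calc vb Q ^ η * T ch vb (fun m _ => m) N Q (vb Q) ≤ vb Q ^ η * (A * vb Q) := by gcongr
      _ = _ := by ring
  set W := vb Q ^ (1 + η) with hW
  have hWpos : 0 < W := Real.rpow_pos_of_pos hv _
  have h7 : (Fintype.card ι * η * A) * (Y - W) ≤ (1 / 2) * Y := by
    have : (Fintype.card ι * η * A) * Y ≤ (1 / 2) * Y := by
      gcongr; linarith
    have h8 : 0 ≤ (Fintype.card ι * η * A) * W := by positivity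
    nlinarith
  have h8 : Y ≤ 2 * (A * W) := by linarith
  have h9 : (Fintype.card ι * η) * (Y - W) ≤ W := by
    have h10 : (Fintype.card ι * η) * Y ≤ (Fintype.card ι * η) * (2 * (A * W)) := by gcongr
    have h11 : (Fintype.card ι * η) * (2 * (A * W)) ≤ 1 * W := by
      calc (Fintype.card ι * η) * (2 * (A * W)) = (2 * (Fintype.card ι * η * A)) * W := by ring
        _ ≤ 1 * W := by gcongr
    have h12 : 0 ≤ (Fintype.card ι * η) * W := by positivity
    nlinarith
  rw [e] at hW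
  linarith

end tree

/-! ### Dyadic cubes and Lebesgue measure -/

section meas

variable {d : ℕ}

/-- cubes: lower corner and side -/
abbrev Cube (d : ℕ) := (Fin d → ℝ) × {ℓ : ℝ // 0 < ℓ}

/-- the children of a cube -/
noncomputable def chl (Q : Cube d) (σ : Fin d → Bool) : Cube d :=
  (fun i => Q.1 i + (if σ i then (Q.2 : ℝ) / 2 else 0), ⟨(Q.2 : ℝ) / 2, half_pos Q.2.2⟩)

/-- the half open cube -/
def hcube (Q : Cube d) : Set (Fin d → ℝ) := Set.pi univ (fun i => Ico (Q.1 i) (Q.1 i + Q.2))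

/-- the child which contains a given point -/
noncomputable def sel (Q : Cube d) (x : Fin d → ℝ) : Fin d → Bool :=
  fun i => decide (Q.1 i + (Q.2 : ℝ) / 2 ≤ x i)

theorem sel_apply (Q : Cube d) (x : Fin d → ℝ) (i : Fin d) :
    sel Q x i = decide (Q.1 i + (Q.2 : ℝ) / 2 ≤ x i) := rfl

theorem mem_child_iff (Q : Cube d) (σ : Fin d → Bool) (x : Fin d → ℝ) :
    x ∈ hcube (chl Q σ) ↔ x ∈ hcube Q ∧ sel Q x = σ := by
  have hℓ := Q.2.2
  simp only [hcube, chl, mem_univ_pi, mem_Ico]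
  constructor
  · intro h
    refine ⟨fun i => ?_, funext fun i => ?_⟩
    · have := h i
      rcases Bool.eq_false_or_eq_true (σ i) with hs | hs <;> simp [hs] at this <;>
        constructor <;> linarith
    · have := h i
      rw [sel_apply]
      rcases Bool.eq_false_or_eq_true (σ i) with hs | hs
      · simp [hs] at this ⊢; linarith
      · simp [hs] at this ⊢; linarith
  · rintro ⟨h, hσ⟩ i
    have := h i
    rw [← hσ, sel_apply]
    by_cases hs : Q.1 i + (Q.2 : ℝ) / 2 ≤ x i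
    · have e : decide (Q.1 i + (Q.2 : ℝ) / 2 ≤ x i) = true := decide_eq_true hs
      rw [e, if_pos rfl]
      constructor <;> linarith
    · have e : decide (Q.1 i + (Q.2 : ℝ) / 2 ≤ x i) = false := decide_eq_false hs
      rw [e, if_neg (by simp)]
      push Not at hs
      constructor <;> linarith

theorem measurableSet_hcube (Q : Cube d) : MeasurableSet (hcube Q) :=
  MeasurableSet.univ_pi (fun _ => measurableSet_Ico)

theorem hcube_eq (Q : Cube d) : hcube Q = ⋃ σ, hcube (chl Q σ) := by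
  ext x
  simp only [mem_iUnion, mem_child_iff]
  simp

theorem lint_split (Q : Cube d) (f : (Fin d → ℝ) → ℝ≥0∞) :
    ∫⁻ x in hcube Q, f x = ∑ σ, ∫⁻ x in hcube (chl Q σ), f x := by
  conv_lhs => rw [hcube_eq Q]
  rw [lintegral_iUnion (fun σ => measurableSet_hcube _) ?_ f, tsum_fintype]
  intro σ τ hst
  rw [Function.onFun, Set.disjoint_left]
  intro x hx hx'
  exact hst (((mem_child_iff Q σ x).1 hx).2.symm.trans ((mem_child_iff Q τ x).1 hx').2)

theorem volume_hcube (Q : Cube d) : volume (hcube Q) = ENNReal.ofReal ((Q.2 : ℝ) ^ d) := by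
  rw [hcube, Real.volume_pi_Ico]
  simp [ENNReal.ofReal_pow Q.2.2.le]

theorem hcube_ae (Q : Cube d) : hcube Q =ᵐ[volume] cube Q.1 Q.2 :=
  Measure.univ_pi_Ico_ae_eq_Icc

theorem volume_cube (Q : Cube d) : volume (cube Q.1 Q.2) = ENNReal.ofReal ((Q.2 : ℝ) ^ d) := by
  rw [← measure_congr (hcube_ae Q), volume_hcube]

/-- the average over a cube, as a real number -/
noncomputable def bar (f : (Fin d → ℝ) → ℝ) (Q : Cube d) : ℝ :=
  (∫⁻ x in hcube Q, ENNReal.ofReal (f x)).toReal / (Q.2 : ℝ) ^ d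

theorem pow_pos' (Q : Cube d) : 0 < (Q.2 : ℝ) ^ d := pow_pos Q.2.2 d

theorem avg_eq_bar (f : (Fin d → ℝ) → ℝ) (Q : Cube d)
    (hf : ∫⁻ x in hcube Q, ENNReal.ofReal (f x) ≠ ∞) : avg f Q.1 Q.2 = ENNReal.ofReal (bar f Q) := by
  unfold avg bar
  rw [volume_cube, ← setLIntegral_congr (hcube_ae Q), ENNReal.ofReal_div_of_pos (pow_pos' Q),
    ENNReal.ofReal_toReal hf]

theorem bar_nonneg (f : (Fin d → ℝ) → ℝ) (Q : Cube d) : 0 ≤ bar f Q :=
  div_nonneg ENNReal.toReal_nonneg (pow_pos' Q).le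

theorem bar_avg (f : (Fin d → ℝ) → ℝ) (Q : Cube d)
    (hf : ∀ Q : Cube d, ∫⁻ x in hcube Q, ENNReal.ofReal (f x) ≠ ∞) :
    bar f Q = (∑ σ, bar f (chl Q σ)) / Fintype.card (Fin d → Bool) := by
  unfold bar
  rw [lint_split Q, ENNReal.toReal_sum (fun σ _ => hf _)]
  have h1 : ∀ σ, (((chl Q σ).2 : ℝ)) ^ d = (Q.2 : ℝ) ^ d / 2 ^ d := by
    intro σ; simp only [chl]; rw [div_pow]
  have h2 : (Fintype.card (Fin d → Bool) : ℝ) = 2 ^ d := by simp
  simp only [h1]
  rw [h2, ← Finset.sum_div]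
  have := pow_pos' Q
  field_simp

/-- the leaf of generation `N` which contains `x` -/
noncomputable def leaf : ℕ → Cube d → (Fin d → ℝ) → Cube d
  | 0, Q, _ => Q
  | N + 1, Q, x => leaf N (chl Q (sel Q x)) x

theorem mem_leaf : ∀ (N : ℕ) (Q : Cube d) (x : Fin d → ℝ), x ∈ hcube Q → x ∈ hcube (leaf N Q x) := by
  intro N
  induction N with
  | zero => intro Q x hx; exact hx
  | succ N ih => intro Q x hx; exact ih _ _ ((mem_child_iff Q _ x).2 ⟨hx, rfl⟩)

theorem side_leaf : ∀ (N : ℕ) (Q : Cube d) (x : Fin d → ℝ), ((leaf N Q x).2 : ℝ) = (Q.2 : ℝ) / 2 ^ N := by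
  intro N
  induction N with
  | zero => intro Q x; simp [leaf]
  | succ N ih =>
    intro Q x
    simp only [leaf]
    rw [ih]
    simp only [chl]
    rw [pow_succ']
    field_simp

theorem measurable_sel (Q : Cube d) (σ : Fin d → Bool) : MeasurableSet {x | sel Q x = σ} := by
  have : {x | sel Q x = σ} = ⋂ i, {x : Fin d → ℝ | decide (Q.1 i + (Q.2 : ℝ) / 2 ≤ x i) = σ i} := by
    ext x
    simp only [Set.mem_ofPred_eq, mem_iInter, ← sel_apply]
    exact funext_iff
  rw [this]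
  refine MeasurableSet.iInter (fun i => ?_)
  rcases Bool.eq_false_or_eq_true (σ i) with hs | hs
  · simp only [hs, decide_eq_true_eq]
    exact measurableSet_le measurable_const (measurable_pi_apply i)
  · simp only [hs, decide_eq_false_iff_not, not_le]
    exact measurableSet_lt (measurable_pi_apply i) measurable_const

theorem measurable_leaf (f : Cube d → ℝ≥0∞) : ∀ (N : ℕ) (Q : Cube d), Measurable (fun x => f (leaf N Q x)) := by
  intro N
  induction N with
  | zero => intro Q; simp only [leaf]; exact measurable_const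
  | succ N ih =>
    intro Q
    have : (fun x => f (leaf (N + 1) Q x)) = fun x => ∑ σ, ({x | sel Q x = σ}).indicator (fun x => f (leaf N (chl Q σ) x)) x := by
      funext x
      rw [Finset.sum_eq_single (sel Q x)]
      · simp [leaf]
      · intro σ _ hσ
        rw [indicator_of_notMem]
        intro h; exact hσ h.symm
      · intro h; exact absurd (Finset.mem_univ _) h
    rw [this]
    exact Finset.measurable_sum _ (fun σ _ => (ih (chl Q σ)).indicator (measurable_sel Q σ))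

theorem lint_leaf (u f : Cube d → ℝ) (hf : ∀ Q, 0 ≤ f Q) : ∀ (N : ℕ) (Q : Cube d) (m : ℝ),
    ∫⁻ x in hcube Q, ENNReal.ofReal (f (leaf N Q x))
      = ENNReal.ofReal ((Q.2 : ℝ) ^ d * T chl u (fun _ Q => f Q) N Q m) := by
  have hT : ∀ N Q m, 0 ≤ T chl u (fun _ Q => f Q) N Q m := by
    intro N
    induction N with
    | zero => intro Q m; exact hf Q
    | succ N ih => intro Q m; exact div_nonneg (Finset.sum_nonneg fun σ _ => ih _ _) (Nat.cast_nonneg _)
  intro N
  induction N with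
  | zero =>
    intro Q m
    simp only [leaf, T]
    rw [setLIntegral_const, volume_hcube, ENNReal.ofReal_mul (pow_pos' Q).le, mul_comm]
  | succ N ih =>
    intro Q m
    rw [lint_split Q]
    have h1 : ∀ σ, ∫⁻ x in hcube (chl Q σ), ENNReal.ofReal (f (leaf (N + 1) Q x))
        = ∫⁻ x in hcube (chl Q σ), ENNReal.ofReal (f (leaf N (chl Q σ) x)) := by
      intro σ
      refine setLIntegral_congr_fun (measurableSet_hcube _) (fun x hx => ?_)
      have := ((mem_child_iff Q σ x).1 hx).2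
      simp only [leaf, this]
    simp only [h1, ih _ (max m (u Q)), T]
    rw [← ENNReal.ofReal_sum_of_nonneg (fun σ _ => mul_nonneg (pow_pos' _).le (hT _ _ _))]
    congr 1
    have h2 : ∀ σ, (((chl Q σ).2 : ℝ)) ^ d = (Q.2 : ℝ) ^ d / 2 ^ d := by
      intro σ; simp only [chl]; rw [div_pow]
    have h3 : (Fintype.card (Fin d → Bool) : ℝ) = 2 ^ d := by simp
    simp only [h2]
    rw [h3, ← Finset.mul_sum]
    field_simp

theorem hcube_subset_ball (Q : Cube d) :
    hcube Q ⊆ closedBall (fun i => Q.1 i + (Q.2 : ℝ) / 2) ((Q.2 : ℝ) / 2) := by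
  intro x hx
  have hℓ := Q.2.2
  rw [mem_closedBall, dist_pi_le_iff (by linarith)]
  intro i
  have := (mem_univ_pi.1 hx) i
  rw [Real.dist_eq, abs_le]
  constructor <;> linarith [this.1, this.2]

theorem ball_eq_cube (Q : Cube d) :
    closedBall (fun i => Q.1 i + (Q.2 : ℝ) / 2) ((Q.2 : ℝ) / 2) = cube Q.1 Q.2 := by
  have hℓ := Q.2.2
  ext x
  rw [mem_closedBall, dist_pi_le_iff (by linarith), cube, mem_Icc, Pi.le_def, Pi.le_def, ← forall_and]
  refine forall_congr' (fun i => ?_)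
  rw [Real.dist_eq, abs_le]
  constructor
  · rintro ⟨h1, h2⟩; constructor <;> linarith
  · rintro ⟨h1, h2⟩; constructor <;> linarith

/-- Lebesgue differentiation along the leaves -/
theorem tendsto_leaf {v : (Fin d → ℝ) → ℝ} (hv : LocallyIntegrable v volume) (hv0 : ∀ x, 0 ≤ v x) :
    ∀ᵐ x ∂volume, ∀ Q : Cube d, x ∈ hcube Q → Tendsto (fun N => bar v (leaf N Q x)) atTop (𝓝 (v x)) := by
  filter_upwards [IsUnifLocDoublingMeasure.ae_tendsto_average (μ := (volume : Measure (Fin d → ℝ))) hv 1] with x hx Q hQ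
  have h1 := hx (l := atTop) (fun N : ℕ => (fun i => (leaf N Q x).1 i + ((leaf N Q x).2 : ℝ) / 2))
    (fun N : ℕ => ((leaf N Q x).2 : ℝ) / 2) ?_ ?_
  · refine h1.congr (fun N => ?_)
    rw [ball_eq_cube, setAverage_eq]
    unfold bar
    rw [← setIntegral_congr_set (hcube_ae _), integral_eq_lintegral_of_nonneg_ae (Filter.Eventually.of_forall hv0)
      (hv.aestronglyMeasurable.restrict), measureReal_def, volume_cube, ENNReal.toReal_ofReal (pow_pos' _).le,
      smul_eq_mul, div_eq_inv_mul]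
  · rw [tendsto_nhdsWithin_iff]
    refine ⟨?_, Filter.Eventually.of_forall (fun N => half_pos (leaf N Q x).2.2)⟩
    simp only [side_leaf]
    have h2 : Tendsto (fun N : ℕ => (Q.2 : ℝ) / 2 * (1 / 2) ^ N) atTop (𝓝 ((Q.2 : ℝ) / 2 * 0)) :=
      (tendsto_pow_atTop_nhds_zero_of_lt_one (by norm_num) (by norm_num)).const_mul _
    rw [mul_zero] at h2
    refine h2.congr (fun N => ?_)
    rw [one_div, inv_pow]; ring
  · refine Filter.Eventually.of_forall (fun N => ?_)
    rw [one_mul]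
    exact hcube_subset_ball _ (mem_leaf N Q x hQ)

/-- passage to the limit -/
theorem lint_le {v : (Fin d → ℝ) → ℝ} (hv : LocallyIntegrable v volume) (hv0 : ∀ x, 0 ≤ v x)
    {q B : ℝ} (hq : 0 ≤ q) (u : Cube d → ℝ) (Q : Cube d) (m : ℝ)
    (h : ∀ N, T chl u (fun _ Q => bar v Q ^ q) N Q m ≤ B) :
    ∫⁻ x in hcube Q, ENNReal.ofReal (v x ^ q) ≤ ENNReal.ofReal ((Q.2 : ℝ) ^ d * B) := by
  have h1 : ∀ᵐ x ∂(volume.restrict (hcube Q)), ENNReal.ofReal (v x ^ q)
      = liminf (fun N => ENNReal.ofReal (bar v (leaf N Q x) ^ q)) atTop := by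
    rw [ae_restrict_iff' (measurableSet_hcube Q)]
    filter_upwards [tendsto_leaf hv hv0] with x hx hxQ
    have h2 : Tendsto (fun N => ENNReal.ofReal (bar v (leaf N Q x) ^ q)) atTop (𝓝 (ENNReal.ofReal (v x ^ q))) := by
      refine (ENNReal.continuous_ofReal.tendsto _).comp ?_
      exact ((Real.continuous_rpow_const hq).tendsto _).comp (hx Q hxQ)
    exact h2.liminf_eq.symm
  rw [lintegral_congr_ae h1]
  refine (lintegral_liminf_le (fun N => measurable_leaf (fun R => ENNReal.ofReal (bar v R ^ q)) N Q)).trans ?_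
  refine liminf_le_of_le (by isBoundedDefault) (fun b hb => ?_)
  obtain ⟨N, hN⟩ := hb.exists
  refine hN.trans ?_
  rw [lint_leaf u (fun R => bar v R ^ q) (fun R => Real.rpow_nonneg (bar_nonneg v R) q) N Q m]
  have := pow_pos' Q
  gcongr
  exact h N

/-- Hölder's inequality for averages -/
theorem jensen {w : (Fin d → ℝ) → ℝ} (hw : AEStronglyMeasurable w volume) (hw0 : ∀ x, 0 ≤ w x) {p : ℝ} (hp : 1 < p)
    (Q : Cube d) (h2 : ∫⁻ x in hcube Q, ENNReal.ofReal (w x ^ p) ≠ ∞) :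
    bar w Q ^ p ≤ bar (fun x => w x ^ p) Q := by
  have hq : p.HolderConjugate (p / (p - 1)) := Real.HolderConjugate.conjExponent hp
  have hp0 : 0 < p := by linarith
  have hm : AEMeasurable (fun x => ENNReal.ofReal (w x)) (volume.restrict (hcube Q)) :=
    (hw.aemeasurable.ennreal_ofReal).restrict
  have h := ENNReal.lintegral_mul_le_Lp_mul_Lq (volume.restrict (hcube Q)) hq hm (aemeasurable_const (b := (1 : ℝ≥0∞)))
  simp only [Pi.mul_apply, mul_one, ENNReal.one_rpow, lintegral_one, Measure.restrict_apply_univ, volume_hcube] at h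
  have e1 : ∀ x, ENNReal.ofReal (w x) ^ p = ENNReal.ofReal (w x ^ p) := fun x =>
    ENNReal.ofReal_rpow_of_nonneg (hw0 x) hp0.le
  simp only [e1] at h
  have hP := pow_pos' Q
  have h3 : (∫⁻ x in hcube Q, ENNReal.ofReal (w x)).toReal
      ≤ (∫⁻ x in hcube Q, ENNReal.ofReal (w x ^ p)).toReal ^ (1 / p) * ((Q.2 : ℝ) ^ d) ^ (1 / (p / (p - 1))) := by
    have h4 := ENNReal.toReal_mono ?_ h
    · rw [ENNReal.toReal_mul, ← ENNReal.toReal_rpow, ← ENNReal.toReal_rpow, ENNReal.toReal_ofReal hP.le] at h4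
      exact h4
    · refine ENNReal.mul_ne_top (ENNReal.rpow_ne_top_of_nonneg (by positivity) h2) ?_
      exact ENNReal.rpow_ne_top_of_nonneg (by have : 0 < p - 1 := by linarith
                                              positivity) ENNReal.ofReal_ne_top
  unfold bar
  set W := (∫⁻ x in hcube Q, ENNReal.ofReal (w x)).toReal with hW
  set V := (∫⁻ x in hcube Q, ENNReal.ofReal (w x ^ p)).toReal with hV
  set L := (Q.2 : ℝ) ^ d with hL
  have hW0 : 0 ≤ W := ENNReal.toReal_nonneg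
  have hV0 : 0 ≤ V := ENNReal.toReal_nonneg
  have h5 : W ^ p ≤ V * L ^ (p - 1) := by
    calc W ^ p ≤ (V ^ (1 / p) * L ^ (1 / (p / (p - 1)))) ^ p := by gcongr
      _ = V * L ^ (p - 1) := by
        rw [Real.mul_rpow (by positivity) (by positivity), ← Real.rpow_mul hV0, ← Real.rpow_mul hP.le]
        have e2 : 1 / p * p = 1 := by field_simp
        have e3 : 1 / (p / (p - 1)) * p = p - 1 := by
          have : p - 1 ≠ 0 := by linarith
          field_simp
        rw [e2, e3, Real.rpow_one]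
  rw [Real.div_rpow hW0 hP.le, div_le_div_iff₀ (by positivity) hP]
  calc W ^ p * L ≤ (V * L ^ (p - 1)) * L := by gcongr
    _ = V * L ^ p := by
      rw [mul_assoc]
      congr 1
      nth_rewrite 2 [← Real.rpow_one L]
      rw [← Real.rpow_add hP]; congr 1; ring

theorem lint_ne_top {w : (Fin d → ℝ) → ℝ} (hw : LocallyIntegrable w volume) (Q : Cube d) :
    ∫⁻ x in hcube Q, ENNReal.ofReal (w x) ≠ ∞ := by
  have h1 : IntegrableOn w (cube Q.1 Q.2) volume :=
    hw.integrableOn_isCompact (ball_eq_cube Q ▸ isCompact_closedBall _ _)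
  have h2 : IntegrableOn w (hcube Q) volume := h1.congr_set_ae (hcube_ae Q)
  have h3 := h2.2
  rw [HasFiniteIntegral] at h3
  refine ne_of_lt (lt_of_le_of_lt (lintegral_mono (fun x => ?_)) h3)
  exact Real.ofReal_le_enorm _

theorem lint_pos {w : (Fin d → ℝ) → ℝ} (hw : AEStronglyMeasurable w volume) (hw0 : ∀ x, 0 < w x) (Q : Cube d) :
    0 < ∫⁻ x in hcube Q, ENNReal.ofReal (w x) := by
  rw [pos_iff_ne_zero]
  intro h
  rw [lintegral_eq_zero_iff' (hw.aemeasurable.ennreal_ofReal).restrict] at h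
  have h1 : volume.restrict (hcube Q) univ = 0 := by
    have h2 : ∀ᵐ x ∂(volume.restrict (hcube Q)), False := by
      filter_upwards [h] with x hx
      have := ENNReal.ofReal_pos.2 (hw0 x)
      simp only [Pi.zero_apply] at hx
      exact this.ne' hx
    have h3 : (volume.restrict (hcube Q)) {x | ¬ False} = 0 := h2
    simpa using h3
  rw [Measure.restrict_apply_univ, volume_hcube] at h1
  exact (ENNReal.ofReal_pos.2 (pow_pos' Q)).ne' h1

theorem main {p : ℝ} (hp : 1 < p) {w : (Fin d → ℝ) → ℝ} (hw : IsWeight w) (hrh : rhConst p w ≠ ∞)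
    (Q : Cube d) {ε : ℝ} (hε : 0 < ε)
    (hε2 : ε ≤ p / (2 * 2 ^ d * (2 * p / (p - 1)) ^ p) * (rhConst p w).toReal ^ (-p)) :
    avg (fun x => w x ^ (p + ε)) Q.1 Q.2 ≤ 2 * rhConst p w ^ (p + ε) * avg w Q.1 Q.2 ^ (p + ε) := by
  obtain ⟨hwl, hw0⟩ := hw
  have hp0 : 0 < p := by linarith
  have hp1 : 0 < p - 1 := by linarith
  set M := rhConst p w with hM
  have hw_top := lint_ne_top hwl
  have hw_pos := lint_pos hwl.aestronglyMeasurable hw0
  have hvol : ∀ R : Cube d, volume (cube R.1 R.2) ≠ 0 ∧ volume (cube R.1 R.2) ≠ ∞ := by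
    intro R
    rw [volume_cube]
    exact ⟨(ENNReal.ofReal_pos.2 (pow_pos' R)).ne', ENNReal.ofReal_ne_top⟩
  have havg_bar : ∀ R : Cube d, avg w R.1 R.2 = ENNReal.ofReal (bar w R) := fun R => avg_eq_bar w R (hw_top R)
  have hbar_pos : ∀ R : Cube d, 0 < bar w R := fun R =>
    div_pos (ENNReal.toReal_pos (hw_pos R).ne' (hw_top R)) (pow_pos' R)
  -- the reverse Hölder inequality
  have hr1 : ∀ R : Cube d, avg (fun x => w x ^ p) R.1 R.2 ≤ M ^ p * avg w R.1 R.2 ^ p := by
    intro R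
    have h1 : avg (fun x => w x ^ p) R.1 R.2 ^ (1 / p) / avg w R.1 R.2 ≤ M := by
      rw [hM, rhConst]
      exact le_iSup_of_le R.1 (le_iSup_of_le (R.2 : ℝ) (le_iSup_of_le R.2.2 le_rfl))
    have h2 : avg (fun x => w x ^ p) R.1 R.2 ^ (1 / p) ≤ M * avg w R.1 R.2 := by
      refine (ENNReal.div_le_iff ?_ ?_).1 h1
      · rw [havg_bar]; exact (ENNReal.ofReal_pos.2 (hbar_pos R)).ne'
      · rw [havg_bar]; exact ENNReal.ofReal_ne_top
    have h3 : (avg (fun x => w x ^ p) R.1 R.2 ^ (1 / p)) ^ p ≤ (M * avg w R.1 R.2) ^ p := by gcongr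
    rw [← ENNReal.rpow_mul, one_div, inv_mul_cancel₀ hp0.ne', ENNReal.rpow_one,
      ENNReal.mul_rpow_of_nonneg _ _ hp0.le] at h3
    exact h3
  have hv_top : ∀ R : Cube d, ∫⁻ x in hcube R, ENNReal.ofReal (w x ^ p) ≠ ∞ := by
    intro R h
    have h1 := hr1 R
    have h2 : avg (fun x => w x ^ p) R.1 R.2 = ∞ := by
      unfold avg
      rw [← setLIntegral_congr (hcube_ae R), h, ENNReal.top_div_of_ne_top (hvol R).2]
    rw [h2, havg_bar] at h1
    refine absurd h1 (not_le.2 (lt_top_iff_ne_top.2 ?_))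
    exact ENNReal.mul_ne_top (ENNReal.rpow_ne_top_of_nonneg hp0.le hrh)
      (ENNReal.rpow_ne_top_of_nonneg hp0.le ENNReal.ofReal_ne_top)
  have hrv : ∀ R : Cube d, bar (fun x => w x ^ p) R ≤ M.toReal ^ p * bar w R ^ p := by
    intro R
    have h1 := hr1 R
    rw [avg_eq_bar _ R (hv_top R), havg_bar, ← ENNReal.ofReal_toReal hrh,
      ENNReal.ofReal_rpow_of_nonneg ENNReal.toReal_nonneg hp0.le,
      ENNReal.ofReal_rpow_of_nonneg (hbar_pos R).le hp0.le, ← ENNReal.ofReal_mul (by positivity),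
      ENNReal.ofReal_le_ofReal_iff (by have := hbar_pos R; positivity)] at h1
    exact h1
  have hvm : AEStronglyMeasurable (fun x => w x ^ p) volume :=
    (hwl.aestronglyMeasurable.aemeasurable.pow_const p).aestronglyMeasurable
  have hv0 : ∀ x, 0 ≤ w x ^ p := fun x => Real.rpow_nonneg (hw0 x).le p
  have hvl : LocallyIntegrable (fun x => w x ^ p) volume := by
    rw [locallyIntegrable_iff]
    intro k hk
    obtain ⟨r, hr0, hr⟩ := hk.isBounded.subset_closedBall_lt 0 0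
    let R : Cube d := (fun _ => -r, ⟨2 * r, by linarith⟩)
    have h1 : closedBall (0 : Fin d → ℝ) r = cube R.1 R.2 := by
      rw [← ball_eq_cube R]
      congr 1
      · funext i; simp [R]
      · simp [R]
    refine IntegrableOn.mono_set ?_ (hr.trans h1.subset)
    refine IntegrableOn.congr_set_ae ?_ (hcube_ae R).symm
    refine ⟨hvm.restrict, ?_⟩
    rw [HasFiniteIntegral]
    have h2 := hv_top R
    refine lt_top_iff_ne_top.2 ?_
    convert h2 using 2
    funext x
    exact Real.enorm_of_nonneg (hv0 x)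
  have hsys : Sys chl (M.toReal ^ p) p (bar w) (bar (fun x => w x ^ p)) := by
    refine ⟨hp, hbar_pos, fun R => bar_avg w R hw_top, fun R => bar_avg _ R hv_top, fun R => ?_, hrv⟩
    exact jensen hwl.aestronglyMeasurable (fun x => (hw0 x).le) hp R (hv_top R)
  have hM1 : 1 ≤ M.toReal ^ p := hsys.one_le_K Q
  have hMpos : 0 < M.toReal := by
    by_contra hcon
    push Not at hcon
    have h0 : M.toReal = 0 := le_antisymm hcon ENNReal.toReal_nonneg
    rw [h0, Real.zero_rpow hp0.ne'] at hM1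
    linarith
  set η : ℝ := ε / p with hη
  have hη0 : 0 < η := div_pos hε hp0
  have hη2 : 2 * ((Fintype.card (Fin d → Bool) : ℝ) * η * (M.toReal ^ p * (2 * p / (p - 1)) ^ p)) ≤ 1 := by
    have h3 : (Fintype.card (Fin d → Bool) : ℝ) = 2 ^ d := by simp
    rw [h3, hη]
    rw [Real.rpow_neg hMpos.le] at hε2
    have hA : 0 < (2 * p / (p - 1)) ^ p := by positivity
    have hK : 0 < M.toReal ^ p := by positivity
    rw [← div_eq_mul_inv, div_div, le_div_iff₀ (by positivity)] at hε2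
    calc 2 * ((2 : ℝ) ^ d * (ε / p) * (M.toReal ^ p * (2 * p / (p - 1)) ^ p))
        = (ε * (2 * 2 ^ d * (2 * p / (p - 1)) ^ p * M.toReal ^ p)) / p := by ring
      _ ≤ p / p := by gcongr
      _ = 1 := div_self hp0.ne'
  have hfin := lint_le hvl hv0 (q := 1 + η) (by positivity) (bar (fun x => w x ^ p)) Q
    (bar (fun x => w x ^ p) Q) (fun N => discrete hsys hη0 hη2 N Q)
  have e1 : ∀ x, (w x ^ p) ^ (1 + η) = w x ^ (p + ε) := by
    intro x
    rw [← Real.rpow_mul (hw0 x).le]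
    congr 1
    rw [hη]; field_simp
  simp only [e1] at hfin
  have hB : bar (fun x => w x ^ p) Q ^ (1 + η) ≤ M.toReal ^ (p + ε) * bar w Q ^ (p + ε) := by
    have hbp := hbar_pos Q
    calc bar (fun x => w x ^ p) Q ^ (1 + η) ≤ (M.toReal ^ p * bar w Q ^ p) ^ (1 + η) := by
          have := bar_nonneg (fun x => w x ^ p) Q
          have := hrv Q
          gcongr
      _ = M.toReal ^ (p + ε) * bar w Q ^ (p + ε) := by
          rw [Real.mul_rpow (by positivity) (by positivity), ← Real.rpow_mul hMpos.le, ← Real.rpow_mul hbp.le]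
          have : p * (1 + η) = p + ε := by rw [hη]; field_simp
          rw [this]
  have hP := pow_pos' Q
  have h7 : avg (fun x => w x ^ (p + ε)) Q.1 Q.2
      = (∫⁻ x in hcube Q, ENNReal.ofReal (w x ^ (p + ε))) / volume (cube Q.1 Q.2) := by
    unfold avg
    rw [← setLIntegral_congr (hcube_ae Q)]
  have h4 : ∫⁻ x in hcube Q, ENNReal.ofReal (w x ^ (p + ε))
      ≤ ENNReal.ofReal ((Q.2 : ℝ) ^ d * (2 * (M.toReal ^ (p + ε) * bar w Q ^ (p + ε)))) := by
    refine hfin.trans ?_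
    gcongr
  have h5 : ENNReal.ofReal ((Q.2 : ℝ) ^ d * (2 * (M.toReal ^ (p + ε) * bar w Q ^ (p + ε))))
      = ENNReal.ofReal ((Q.2 : ℝ) ^ d) * (2 * M ^ (p + ε) * (avg w Q.1 Q.2) ^ (p + ε)) := by
    rw [havg_bar, ← ENNReal.ofReal_toReal hrh, ENNReal.ofReal_rpow_of_nonneg ENNReal.toReal_nonneg (by positivity),
      ENNReal.ofReal_rpow_of_nonneg (hbar_pos Q).le (by positivity),
      ENNReal.ofReal_mul hP.le, ENNReal.ofReal_mul (by norm_num), ENNReal.ofReal_mul (by positivity)]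
    simp only [ENNReal.toReal_ofReal ENNReal.toReal_nonneg]
    rw [ENNReal.ofReal_ofNat, mul_assoc]
  rw [h5, ← volume_cube] at h4
  rw [h7]
  exact ENNReal.div_le_of_le_mul' h4

end meas

/-- **Explicit Gehring exponent**: the reverse Hölder inequality improves on the range
`0 < ε ≤ c [w]_{RH_p}^{-p}`, with `c = c(d, p) > 0`. -/
theorem result : ∀ (d : ℕ), 1 ≤ d → ∀ p : ℝ, 1 < p → ∃ c : ℝ, 0 < c ∧
    ∀ w : (Fin d → ℝ) → ℝ, IsWeight w → rhConst p w ≠ ∞ →
    ∀ (a : Fin d → ℝ) (ℓ : ℝ), 0 < ℓ → ∀ ε : ℝ, 0 < ε → ε ≤ c * (rhConst p w).toReal ^ (-p) →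
      avg (fun x => w x ^ (p + ε)) a ℓ ≤ 2 * rhConst p w ^ (p + ε) * avg w a ℓ ^ (p + ε) := by
  intro d _ p hp
  have hp0 : 0 < p := by linarith
  have hp1 : 0 < p - 1 := by linarith
  refine ⟨p / (2 * 2 ^ d * (2 * p / (p - 1)) ^ p), by positivity, ?_⟩
  intro w hw hrh a ℓ hℓ ε hε hε2
  exact main hp hw hrh (a, ⟨ℓ, hℓ⟩) hε hε2

end Pool.Agent.Results.MP_edcda5_an.Gehring
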